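import Pool.Agent.K6.H43.BD.Val
import Pool.Agent.K6.H79.ZP.Uni

/-!
Finiteness of the numbers of bounded degree over a finitely generated field which are integral relative
to more than twice as many points (helper file).
-/

set_option autoImplicit false

namespace Pool.Agent.K6.H43.BD

open Polynomial Pool.Agent.Y910.Z

/-- The linear form given by a point of the projective line, on the polynomials of degree at most `e`
(vectors of coefficients). -/
noncomputable def form (e : ℕ) : Option ℂ → (Fin (e + 1) → ℂ) →ₗ[ℂ] ℂ
  | some a => ∑ i : Fin (e + 1), a ^ (i : ℕ) • LinearMap.proj i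
  | none => LinearMap.proj (Fin.last e)

/-- The polynomial of a vector. -/
noncomputable def pol (e : ℕ) (v : Fin (e + 1) → ℂ) : Polynomial ℂ :=
  ∑ i : Fin (e + 1), C (v i) * X ^ (i : ℕ)

theorem coeff_pol (e : ℕ) (v : Fin (e + 1) → ℂ) (i : Fin (e + 1)) : (pol e v).coeff i = v i := by
  rw [pol, finsetSum_coeff, Finset.sum_eq_single i]
  · rw [coeff_C_mul, coeff_X_pow, if_pos rfl, mul_one]
  · intro j _ hj
    rw [coeff_C_mul, coeff_X_pow, if_neg, mul_zero]
    intro h
    exact hj (Fin.ext h.symm)
  · intro h
    exact absurd (Finset.mem_univ _) h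

theorem natDegree_pol (e : ℕ) (v : Fin (e + 1) → ℂ) : (pol e v).natDegree ≤ e := by
  rw [pol]
  refine natDegree_sum_le_of_forall_le _ _ fun i _ => (natDegree_C_mul_X_pow_le _ _).trans ?_
  exact Nat.lt_succ_iff.1 i.2

theorem form_eq (e : ℕ) (v : Fin (e + 1) → ℂ) (q : Option ℂ) : form e q v = val e (pol e v) q := by
  cases q with
  | none =>
    change v (Fin.last e) = (pol e v).coeff e
    exact (coeff_pol e v (Fin.last e)).symm
  | some a =>
    change (∑ i : Fin (e + 1), a ^ (i : ℕ) • (LinearMap.proj i : (Fin (e + 1) → ℂ) →ₗ[ℂ] ℂ)) v =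
      (pol e v).eval a
    rw [pol, eval_finsetSum, LinearMap.sum_apply]
    refine Finset.sum_congr rfl fun i _ => ?_
    rw [LinearMap.smul_apply, LinearMap.proj_apply, smul_eq_mul, eval_mul, eval_C, eval_pow, eval_X,
      mul_comm]

theorem pol_coeffs {f : Polynomial ℂ} {e : ℕ} (hf : f.natDegree ≤ e) :
    pol e (fun i => f.coeff i) = f := by
  ext j
  by_cases hj : j ≤ e
  · exact coeff_pol e (fun i => f.coeff i) ⟨j, Nat.lt_succ_of_le hj⟩
  · push Not at hj
    rw [coeff_eq_zero_of_natDegree_lt ((natDegree_pol e _).trans_lt hj),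
      coeff_eq_zero_of_natDegree_lt (hf.trans_lt hj)]

/-- The forms are in general position. -/
theorem general (e : ℕ) (B : Finset (Option ℂ)) (hB : B.card = e + 1) (v : Fin (e + 1) → ℂ)
    (hv : ∀ q ∈ B, form e q v = 0) : v = 0 := by
  classical
  have hpol : pol e v = 0 := by
    by_contra hne
    by_cases hn : none ∈ B
    · -- the leading coefficient vanishes
      have h1 : (pol e v).coeff e = 0 := by
        have h2 := hv _ hn
        rw [form_eq] at h2
        exact h2
      have h3 : (pol e v).natDegree < e := by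
        refine lt_of_le_of_ne (natDegree_pol e v) fun h => hne ?_
        rw [← leadingCoeff_eq_zero, leadingCoeff, h, h1]
      have h4 : (B.erase none).card = e := by rw [Finset.card_erase_of_mem hn, hB]; rfl
      let A : Finset ℂ := (B.erase none).preimage some (Option.some_injective ℂ).injOn
      have h5 : A.card = e := by
        rw [← h4, ← Finset.card_image_of_injective A (Option.some_injective ℂ)]
        congr 1
        ext q
        simp only [A, Finset.mem_image, Finset.mem_preimage]
        constructor
        · rintro ⟨a, ha, rfl⟩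
          exact ha
        · intro hq
          cases q with
          | none => exact absurd rfl (Finset.mem_erase.1 hq).1
          | some a => exact ⟨a, hq, rfl⟩
      have h6 : A.val ≤ (pol e v).roots := by
        rw [Multiset.le_iff_subset A.nodup]
        intro a ha
        rw [mem_roots hne]
        have h7 := hv (some a) (Finset.mem_of_mem_erase (Finset.mem_preimage.1 ha))
        rw [form_eq] at h7
        exact h7
      have h8 := (Multiset.card_le_card h6).trans (card_roots' _)
      change A.card ≤ _ at h8
      omega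
    · let A : Finset ℂ := B.preimage some (Option.some_injective ℂ).injOn
      have h5 : A.card = e + 1 := by
        rw [← hB, ← Finset.card_image_of_injective A (Option.some_injective ℂ)]
        congr 1
        ext q
        simp only [A, Finset.mem_image, Finset.mem_preimage]
        constructor
        · rintro ⟨a, ha, rfl⟩
          exact ha
        · intro hq
          cases q with
          | none => exact absurd hq hn
          | some a => exact ⟨a, hq, rfl⟩
      have h6 : A.val ≤ (pol e v).roots := by
        rw [Multiset.le_iff_subset A.nodup]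
        intro a ha
        rw [mem_roots hne]
        have h7 := hv (some a) (Finset.mem_preimage.1 ha)
        rw [form_eq] at h7
        exact h7
      have h8 := (Multiset.card_le_card h6).trans (card_roots' _)
      change A.card ≤ _ at h8
      have h9 := natDegree_pol e v
      omega
  ext i
  rw [← coeff_pol e v i, hpol, coeff_zero]
  rfl

theorem countable_closure (S : Finset ℂ) : Countable (Subfield.closure (S : Set ℂ)) := by
  have h1 := Subfield.cardinalMk_closure_le_max (S : Set ℂ)
  have h3 : Cardinal.mk (Subfield.closure (S : Set ℂ)) ≤ Cardinal.aleph0 := by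
    refine h1.trans (max_le ?_ le_rfl)
    exact Cardinal.mk_le_aleph0_iff.2 S.countable_toSet.to_subtype
  exact Cardinal.mk_le_aleph0_iff.1 h3

/-- **Numbers of degree at most `d` which are integral relative to `2 d + 1` points.** -/
theorem finite_at (d : ℕ) (S : Finset ℂ) (Q : Finset (Option ℂ)) (hQS : ∀ a, some a ∈ Q → a ∈ S)
    (hQ : 2 * d + 1 ≤ Q.card) :
    {t : ℂ | DegreeLE (Subfield.closure (S : Set ℂ)) d t ∧ ∀ q ∈ Q, At S t q}.Finite := by
  classical
  set L := Subfield.closure (S : Set ℂ) with hL
  have hcount : Countable L := countable_closure S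
  obtain ⟨T, hT⟩ := quotients S
  rw [← hL] at hT
  -- the numbers of degree `e`
  let N : ℕ → Set ℂ := fun e =>
    {t | IsIntegral L t ∧ (minpoly L t).natDegree = e ∧ ∀ q ∈ Q, At S t q}
  have hsub : {t : ℂ | DegreeLE L d t ∧ ∀ q ∈ Q, At S t q} ⊆ ⋃ e ∈ Finset.range (d + 1), N e := by
    rintro t ⟨⟨f, hf0, hfd, hft⟩, hq⟩
    have hint : IsIntegral L t := isAlgebraic_iff_isIntegral.1 ⟨f, hf0, hft⟩
    have h1 : (minpoly L t).natDegree ≤ d :=
      (natDegree_le_of_dvd (minpoly.dvd L t hft) hf0).trans hfd
    rw [Set.mem_iUnion₂]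
    exact ⟨_, Finset.mem_range.2 (Nat.lt_succ_of_le h1), hint, rfl, hq⟩
  refine Set.Finite.subset (Set.Finite.biUnion (Finset.finite_toSet _) fun e he => ?_) hsub
  have hed : e ≤ d := Nat.lt_succ_iff.1 (Finset.mem_range.1 he)
  let vec : ℂ → Fin (e + 1) → ℂ := fun t i => ((minpoly L t).map (algebraMap L ℂ)).coeff i
  have hpv : ∀ t, (minpoly L t).natDegree = e → pol e (vec t) = (minpoly L t).map (algebraMap L ℂ) :=
    fun t ht => pol_coeffs (by rw [natDegree_map, ht])
  let TT : Set (Fin (e + 1) → ℂ) := vec '' N e
  have hTT : TT.Countable := by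
    refine (Set.countable_range (fun w : Fin (e + 1) → L => fun i => (w i : ℂ))).mono ?_
    rintro _ ⟨t, -, rfl⟩
    exact ⟨fun i => (minpoly L t).coeff i, by
      funext i
      change _ = ((minpoly L t).map (algebraMap L ℂ)).coeff i
      rw [coeff_map]
      rfl⟩
  obtain ⟨𝓗, h𝓗, hcov⟩ := Pool.Agent.K6.H79.ZP.subspaces (s := e) (T : Set ℂ) T.finite_toSet TT hTT
    (J := Q) (fun q => form e q.1) (by
      intro B hB z hz
      refine general e (B.map (Function.Embedding.subtype _)) (by rw [Finset.card_map, hB]) z ?_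
      intro q hq
      obtain ⟨q', hq', rfl⟩ := Finset.mem_map.1 hq
      exact hz q' hq') (by
      rintro _ ⟨t, ⟨htL, hte, htQ⟩, rfl⟩ q q'
      have h1 := hT t htL q.1 q'.1 (fun a ha => hQS a (ha ▸ q.2)) (fun a ha => hQS a (ha ▸ q'.2))
        (htQ _ q.2) (htQ _ q'.2)
      rw [hte] at h1
      change form e q.1 (vec t) ≠ 0 ∧ form e q'.1 (vec t) / form e q.1 (vec t) ∈ _
      rw [form_eq, form_eq, hpv t hte]
      exact h1)
  have hTTfin : TT.Finite := by
    refine Set.Finite.subset (Set.Finite.biUnion 𝓗.finite_toSet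
      (t := fun H => {v | v ∈ H ∧ v (Fin.last e) = 1}) fun H hH => ?_) ?_
    · have h1 := h𝓗 H hH
      rw [Fintype.card_coe] at h1
      have h2 : Module.finrank ℂ H ≤ 1 := by
        by_contra hcon
        push Not at hcon
        have h3 : 1 ≤ Module.finrank ℂ H - 1 := by omega
        have h4 : e + 1 ≤ Q.card - e := by omega
        have h5 : 1 * (e + 1) ≤ (Module.finrank ℂ H - 1) * (Q.card - e) := Nat.mul_le_mul h3 h4
        omega
      refine Set.Subsingleton.finite ?_
      rintro v ⟨hv, hv1⟩ w ⟨hw, hw1⟩
      obtain ⟨u, hu⟩ := finrank_le_one_iff.1 h2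
      obtain ⟨a, ha⟩ := hu ⟨v, hv⟩
      obtain ⟨b, hb⟩ := hu ⟨w, hw⟩
      have ha' : v = a • (u : Fin (e + 1) → ℂ) := by
        have := congrArg Subtype.val ha
        exact this.symm
      have hb' : w = b • (u : Fin (e + 1) → ℂ) := by
        have := congrArg Subtype.val hb
        exact this.symm
      have ha1 : a * (u : Fin (e + 1) → ℂ) (Fin.last e) = 1 := by
        rw [← hv1, ha']
        rfl
      have hb1 : b * (u : Fin (e + 1) → ℂ) (Fin.last e) = 1 := by
        rw [← hw1, hb']
        rfl
      have hab : a = b := by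
        have hu0 : (u : Fin (e + 1) → ℂ) (Fin.last e) ≠ 0 := by
          intro h0
          rw [h0, mul_zero] at ha1
          exact zero_ne_one ha1
        exact mul_right_cancel₀ hu0 (ha1.trans hb1.symm)
      rw [ha', hb', hab]
    · rintro v hv
      obtain ⟨H, hH, hvH⟩ := hcov v hv
      rw [Set.mem_iUnion₂]
      refine ⟨H, hH, hvH, ?_⟩
      obtain ⟨t, ⟨htL, hte, -⟩, rfl⟩ := hv
      change ((minpoly L t).map (algebraMap L ℂ)).coeff e = 1
      have h1 := (minpoly.monic htL).map (algebraMap L ℂ)
      have h2 : ((minpoly L t).map (algebraMap L ℂ)).natDegree = e := by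
        rw [natDegree_map, hte]
      rw [← h2]
      exact h1.coeff_natDegree
  have hfib : N e ⊆ ⋃ v ∈ TT, {t | t ∈ (pol e v).roots ∧ pol e v ≠ 0} := by
    intro t ht
    rw [Set.mem_iUnion₂]
    have hne : (minpoly L t).map (algebraMap L ℂ) ≠ 0 := ((minpoly.monic ht.1).map _).ne_zero
    refine ⟨vec t, ⟨t, ht, rfl⟩, ?_, ?_⟩
    · rw [hpv t ht.2.1, mem_roots hne]
      change eval t ((minpoly L t).map (algebraMap L ℂ)) = 0
      rw [eval_map_algebraMap, minpoly.aeval]
    · rw [hpv t ht.2.1]
      exact hne
  refine Set.Finite.subset (Set.Finite.biUnion hTTfin fun v _ => ?_) hfib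
  refine (((pol e v).roots.toFinset).finite_toSet).subset ?_
  rintro t ⟨ht, -⟩
  exact Multiset.mem_toFinset.2 ht

end Pool.Agent.K6.H43.BD
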