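import Pool.Agent.K6.H43.BD.Fin
import Pool.Agent.R424.TG.Hdg

/-!
Members of one-parameter families at the parameters of bounded degree over a finitely generated field
(helper file).
-/

set_option autoImplicit false

namespace Pool.Agent.K6.H43.BD

open MvPolynomial Pool.Agent.R424.TG Pool.Agent.Y910.Z
open Pool.Agent.R424.MX (exists_placeU)
open Pool.Agent.Y152.RP.FamM (NoAtypical)

theorem Bad.image {k : Type} [Field k] (f : k →+* ℂ) {W : Set k} {t a : k} (h : Bad W t a) :
    Bad (f '' W) (f t) (f a) := by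
  refine ⟨fun h' => h.1 (f.injective h'), ?_⟩
  rw [← map_sub, ← map_inv₀, ← Set.image_insert_eq, ← RingHom.map_closure]
  exact ⟨_, h.2, rfl⟩

/-- The members at the parameters which are near to one of the degenerate parameters excluding each
type. -/
theorem member_good (K : Subfield ℂ) [Countable K] {κ : Type} [Finite κ] {n k₀ N m : ℕ}
    (P : κ → MvPolynomial ((Fin n ⊕ Fin k₀) ⊕ Fin N) (Polynomial K)) (D : Finset ℂ)
    (hD : ∀ α ∈ D, IsAlgebraic K α) (Γ : Finset ℂ) (hΓ : ∀ γ ∈ Γ, IsAlgebraic K γ) :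
    ∃ W : Finset ℂ, ∀ t : ℂ, IsAlgebraic K t → t ∉ D →
      (∀ (r : ℕ) (cls : Fin n → Option (Fin r)) (d : Fin n → ℕ) (L : Submodule ℚ (Fin k₀ → ℚ)),
        (∀ i, 0 < d i) → r + Module.finrank ℚ L + m < n + k₀ →
        ∃ α ∈ D, ¬ Bad (W : Set ℂ) t α ∧ ∀ w ∈ Trop α P, ¬ Compatible cls d L w) →
      NoAtypical (algebraMap (Algebra.adjoin ℤ (Γ : Set ℂ)) ℂ) K m (member t P) := by
  classical
  let k := algebraicClosure K ℂ
  have hcl : IsAlgClosure K k := inferInstance
  have hac : IsAlgClosed k := hcl.isAlgClosed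
  have hc0k : CharZero k := inferInstance
  have hmem : ∀ z : ℂ, IsAlgebraic K z → z ∈ algebraicClosure K ℂ := fun z hz =>
    mem_algebraicClosure_iff'.2 hz.isIntegral
  have hlift : ∀ S : Finset ℂ, (∀ z ∈ S, IsAlgebraic K z) → ∃ S' : Finset k,
      (∀ z : k, z ∈ S' ↔ algebraMap k ℂ z ∈ S) ∧
      algebraMap k ℂ '' (S' : Set k) = (S : Set ℂ) := by
    intro S hS
    have h1 : ∀ z : k, z ∈ (S.attach.image fun z => (⟨z.1, hmem z.1 (hS z.1 z.2)⟩ : k)) ↔
        algebraMap k ℂ z ∈ S := by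
      intro z
      constructor
      · intro hz
        obtain ⟨w, _, hw⟩ := Finset.mem_image.1 hz
        rw [← hw]
        exact w.2
      · intro hz
        exact Finset.mem_image.2 ⟨⟨z.1, hz⟩, Finset.mem_attach _ _, rfl⟩
    refine ⟨S.attach.image fun z => ⟨z.1, hmem z.1 (hS z.1 z.2)⟩, h1, ?_⟩
    ext z
    constructor
    · rintro ⟨w, hw, rfl⟩
      exact (h1 w).1 hw
    · intro hz
      exact ⟨⟨z, hmem z (hS z hz)⟩, (h1 _).2 hz, rfl⟩
  obtain ⟨Γf, -, hΓf⟩ := hlift Γ hΓ
  obtain ⟨D', hD', hD'im⟩ := hlift D hD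
  obtain ⟨W₀, hW₀, hDW, hcore⟩ := core P m D' (Γf : Set k) Γf.finite_toSet
  refine ⟨hW₀.toFinset.image (algebraMap k ℂ), fun t ht htD hgood => ?_⟩
  obtain ⟨t', rfl⟩ : ∃ t' : k, algebraMap k ℂ t' = t := ⟨⟨t, hmem t ht⟩, rfl⟩
  have htD' : t' ∉ D' := fun h => htD ((hD' t').1 h)
  refine noAtypical_of_points K _ (fun x hx => hx.1) ?_
  have h1 := hcore (algebraMap k ℂ t') K le_rfl (fun α hα h => htD' (by
    rw [(algebraMap k ℂ).injective h]
    exact hα)) (fun r cls d L hd hr => by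
    obtain ⟨α, hα, hbad, hno⟩ := hgood r cls d L hd hr
    obtain ⟨α', rfl⟩ : ∃ α' : k, algebraMap k ℂ α' = α := ⟨⟨α, hmem α (hD α hα)⟩, rfl⟩
    have hα' : α' ∈ D' := (hD' α').2 hα
    have hbad' : ¬ Bad W₀ t' α' := by
      intro hb
      apply hbad
      have h2 := Bad.image (algebraMap k ℂ) hb
      rw [Finset.coe_image, Set.Finite.coe_toFinset]
      exact h2
    refine ⟨α', hα', fun ρ x hx => ?_, hno⟩
    obtain ⟨V, h1, h2, h3⟩ := exists_placeU W₀ (hDW α' hα') (by rintro rfl; exact htD' hα') hbad' x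
      (hx.extendScalars k)
    refine ⟨V, ?_, h2, h3⟩
    rw [map_sub] at h1
    exact h1)
  rw [hΓf] at h1
  exact h1

theorem isIntegral_mono {S S' : Set ℂ} (h : S ⊆ S') {t : ℂ}
    (ht : IsIntegral (Subring.closure S) t) : IsIntegral (Subring.closure S') t := by
  obtain ⟨g, hg, hgt⟩ := ht
  refine ⟨g.map (Subring.inclusion (Subring.closure_mono h)), hg.map _, ?_⟩
  rw [Polynomial.eval₂_map]
  exact hgt

theorem bad_zero {S : Set ℂ} {t : ℂ} (ht0 : t ≠ 0) (ht : IsIntegral (Subring.closure S) t⁻¹) :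
    Bad S t 0 := by
  refine ⟨ht0, ?_⟩
  rw [sub_zero]
  obtain ⟨g, hg, hgt⟩ := ht
  have htm : t ∈ Subring.closure (insert t S) := Subring.subset_closure (Set.mem_insert _ _)
  have hle : Subring.closure S ≤ Subring.closure (insert t S) :=
    Subring.closure_mono (Set.subset_insert _ _)
  rcases Nat.eq_zero_or_pos g.natDegree with h0 | hpos
  · exfalso
    have h1 : g = 1 := hg.natDegree_eq_zero.1 h0
    rw [h1, Polynomial.eval₂_one] at hgt
    exact one_ne_zero hgt
  · rw [Polynomial.eval₂_eq_sum_range, Finset.sum_range_succ, hg.coeff_natDegree, map_one,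
      one_mul] at hgt
    have h1 : t⁻¹ = t⁻¹ ^ g.natDegree * t ^ (g.natDegree - 1) := by
      obtain ⟨n, hn⟩ : ∃ n, g.natDegree = n + 1 := ⟨_, (Nat.succ_pred_eq_of_pos hpos).symm⟩
      rw [hn, Nat.add_sub_cancel, pow_succ, mul_right_comm, ← mul_pow, inv_mul_cancel₀ ht0,
        one_pow, one_mul]
    have h2 : t⁻¹ ^ g.natDegree = -∑ i ∈ Finset.range g.natDegree,
        (algebraMap (Subring.closure S) ℂ) (g.coeff i) * t⁻¹ ^ i := by
      linear_combination hgt
    rw [h1, h2, neg_mul, Finset.sum_mul]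
    refine neg_mem (sum_mem fun i hi => ?_)
    have hi' := Finset.mem_range.1 hi
    have h3 : t⁻¹ ^ i * t ^ (g.natDegree - 1) = t ^ (g.natDegree - 1 - i) := by
      obtain ⟨j, hj⟩ : ∃ j, g.natDegree - 1 = i + j := ⟨g.natDegree - 1 - i, by omega⟩
      rw [hj, Nat.add_sub_cancel_left, pow_add, ← mul_assoc, ← mul_pow, inv_mul_cancel₀ ht0,
        one_pow, one_mul]
    rw [mul_assoc, h3]
    exact mul_mem (hle (g.coeff i).2) (pow_mem htm _)

/-- `t` is integral over the ring generated by `F`, relative to the points `E` of the projective line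
(`none` is the point at infinity). -/
def IntegralOff (E : Finset (Option ℂ)) (F : Set ℂ) (t : ℂ) : Prop :=
  (none ∈ E → IsIntegral (Subring.closure F) t) ∧
  ∀ a : ℂ, some a ∈ E → t ≠ a ∧ IsIntegral (Subring.closure F) (t - a)⁻¹

theorem IntegralOff.at {E : Finset (Option ℂ)} {F S : Set ℂ} {t : ℂ} (h : IntegralOff E F t)
    (hFS : F ⊆ S) (hE : ∀ a, some a ∈ E → a ∈ S) {q : Option ℂ} (hq : q ∈ E) : At S t q := by
  cases q with
  | none => exact isIntegral_mono hFS (h.1 hq)
  | some a =>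
    obtain ⟨h1, h2⟩ := h.2 a hq
    have h3 := bad_zero (S := S) (sub_ne_zero.2 h1) (isIntegral_mono hFS h2)
    refine ⟨h1, ?_⟩
    have h4 := h3.2
    rw [sub_zero] at h4
    have h5 : Subring.closure (insert (t - a) S) ≤ Subring.closure (insert t S) := by
      refine Subring.closure_le.2 (Set.insert_subset ?_ ?_)
      · exact sub_mem (Subring.subset_closure (Set.mem_insert _ _))
          (Subring.subset_closure (Set.mem_insert_of_mem _ (hE a hq)))
      · exact (Set.subset_insert _ _).trans Subring.subset_closure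
    exact h5 h4

/-- **Members at the parameters of bounded degree.** -/
theorem boundedT (K : Subfield ℂ) [Countable K] {κ : Type} [Finite κ] {n k₀ N m : ℕ}
    (P : κ → MvPolynomial ((Fin n ⊕ Fin k₀) ⊕ Fin N) (Polynomial K)) (D : Finset ℂ)
    (hD : ∀ α ∈ D, IsAlgebraic K α) (Γ : Finset ℂ) (hΓ : ∀ γ ∈ Γ, IsAlgebraic K γ)
    (F : Finset ℂ) (hF : ∀ z ∈ F, IsAlgebraic K z) (E : Finset (Option ℂ))
    (hED : ∀ α ∈ D, some α ∉ E) (d σ : ℕ) (hσ : 2 * d + 1 ≤ σ + E.card) (hG : Generic m σ P D) :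
    {t : ℂ | (DegreeLE (Subfield.closure (F : Set ℂ)) d t ∧ IntegralOff E (F : Set ℂ) t) ∧
      ¬ NoAtypical (algebraMap (Algebra.adjoin ℤ (Γ : Set ℂ)) ℂ) K m (member t P)}.Finite := by
  classical
  obtain ⟨W, hW⟩ := member_good (m := m) K P D hD Γ hΓ
  let S : Finset ℂ := (W ∪ F ∪ D) ∪ E.eraseNone
  have hWS : (W : Set ℂ) ⊆ S := by
    intro z hz
    simp only [S, Finset.coe_union]
    exact Or.inl (Or.inl (Or.inl hz))
  have hFS : (F : Set ℂ) ⊆ S := by
    intro z hz
    simp only [S, Finset.coe_union]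
    exact Or.inl (Or.inl (Or.inr hz))
  have hDS : ∀ z ∈ D, z ∈ S := by
    intro z hz
    simp only [S, Finset.mem_union]
    exact Or.inl (Or.inr hz)
  have hES : ∀ a, some a ∈ E → a ∈ S := by
    intro a ha
    simp only [S, Finset.mem_union]
    exact Or.inr (Finset.mem_eraseNone.2 ha)
  have halg : ∀ t, DegreeLE (Subfield.closure (F : Set ℂ)) d t → IsAlgebraic K t := by
    intro t ht
    obtain ⟨f, hf0, -, hft⟩ := ht
    have h2 : Subfield.closure (F : Set ℂ) ≤ (algebraicClosure K ℂ).toSubfield :=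
      Subfield.closure_le.2 fun z hz => mem_algebraicClosure_iff'.2 (hF z hz).isIntegral
    have h3 : IsAlgebraic (algebraicClosure K ℂ) t := by
      let i : Subfield.closure (F : Set ℂ) →+* algebraicClosure K ℂ := Subfield.inclusion h2
      refine ⟨f.map i, ?_, ?_⟩
      · rwa [Ne, Polynomial.map_eq_zero_iff i.injective]
      · rw [Polynomial.aeval_def, Polynomial.eval₂_map]
        exact hft
    exact h3.restrictScalars K
  let QQ : Finset ℂ → Finset (Option ℂ) := fun I => I.image some ∪ E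
  refine Set.Finite.subset (D.finite_toSet.union (Set.Finite.biUnion
    ((D.powerset.filter fun I => σ ≤ I.card).finite_toSet)
    (t := fun I => {t : ℂ | DegreeLE (Subfield.closure (S : Set ℂ)) d t ∧
      ∀ q ∈ QQ I, At (S : Set ℂ) t q}) fun I hI => ?_)) ?_
  · have hI' := Finset.mem_filter.1 hI
    have hIs := Finset.mem_powerset.1 hI'.1
    refine finite_at d S (QQ I) ?_ ?_
    · intro a ha
      rcases Finset.mem_union.1 ha with ha | ha
      · obtain ⟨b, hb, hab⟩ := Finset.mem_image.1 ha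
        rw [← Option.some_injective ℂ hab]
        exact hDS b (hIs hb)
      · exact hES a ha
    · rw [Finset.card_union_of_disjoint]
      · rw [Finset.card_image_of_injective _ (Option.some_injective ℂ)]
        omega
      · rw [Finset.disjoint_left]
        intro q hq hq'
        obtain ⟨b, hb, rfl⟩ := Finset.mem_image.1 hq
        exact hED b (hIs hb) hq'
  · rintro t ⟨⟨hdeg, hint⟩, hno⟩
    by_cases htD : t ∈ D
    · exact Or.inl htD
    refine Or.inr ?_
    have h1 : ¬ ∀ (r : ℕ) (cls : Fin n → Option (Fin r)) (d : Fin n → ℕ)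
        (L : Submodule ℚ (Fin k₀ → ℚ)),
        (∀ i, 0 < d i) → r + Module.finrank ℚ L + m < n + k₀ →
        ∃ α ∈ D, ¬ Bad (W : Set ℂ) t α ∧ ∀ w ∈ Trop α P, ¬ Compatible cls d L w :=
      fun h => hno (hW t (halg t hdeg) htD h)
    push Not at h1
    obtain ⟨r, cls, δ, L, hδ, hr, hall⟩ := h1
    obtain ⟨I, hI, hIc, hIno⟩ := hG r cls δ L hδ hr
    rw [Set.mem_iUnion₂]
    refine ⟨I, Finset.mem_filter.2 ⟨Finset.mem_powerset.2 hI, hIc⟩,
      hdeg.mono (Subfield.closure_mono hFS), ?_⟩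
    intro q hq
    rcases Finset.mem_union.1 hq with hq | hq
    · obtain ⟨b, hb, rfl⟩ := Finset.mem_image.1 hq
      have h2 : Bad (W : Set ℂ) t b := by
        by_contra hnb
        obtain ⟨w, hw, hcw⟩ := hall b (hI hb) hnb
        exact hIno b hb w hw hcw
      exact h2.mono hWS
    · exact hint.at hFS hES hq

end Pool.Agent.K6.H43.BD
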