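import Pool.Agent.K6.H43.ZL.Mix
import Pool.Agent.K6.H43.BD.Main

/-!
Families of subvarieties of `Y(1)^n × G_m^k` with several parameters: the members on the lines at the
points of bounded degree (helper file).
-/

set_option autoImplicit false

namespace Pool.Agent.K6.H43.BD

open MvPolynomial Pool.Agent.R424.TG Pool.Agent.R424.MX Pool.Agent.K6.H43.ZL
open Pool.Agent.Y152.RP.FamM (NoAtypical)

variable {K : Subfield ℂ} {s : ℕ}

/-- `x` is algebraic of degree at most `d` over the field generated by `F` (`ι = false`), respectively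
moreover integral over the ring generated by `F` (`ι = true`). -/
def Point (ι : Bool) (d : ℕ) (F : Finset ℂ) (x : ℂ) : Prop :=
  DegreeLE (Subfield.closure (F : Set ℂ)) d x ∧
    (ι = true → IsIntegral (Subring.closure (F : Set ℂ)) x)

/-- **Families with several parameters: the points of bounded degree on the lines.** -/
theorem linesB [Countable K] {κ : Type} [Finite κ] {n k N m M : ℕ}
    (E : κ → MvPolynomial ((Fin n ⊕ Fin k) ⊕ Fin N) (Polynomial (MvPolynomial (Fin s) K)))
    (h : Fin M → Polynomial (MvPolynomial (Fin s) K))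
    (hsep : ∀ l, Coprime (h l) (Polynomial.derivative (h l)))
    (hpair : ∀ l l', l ≠ l' → Coprime (h l) (h l'))
    (e : Fin M → κ → (((Fin n ⊕ Fin k) ⊕ Fin N) →₀ ℕ) → ℕ)
    (he : ∀ l q, ∀ β ∈ (E q).support, Order (h l) ((E q).coeff β) (e l q β)) :
    ∃ R : MvPolynomial (Fin s) K, R ≠ 0 ∧ ∀ t : Fin s → ℂ, valueT K t R ≠ 0 →
      ∀ (ι : Bool) (d σ : ℕ), 2 * d + 1 ≤ σ + ι.toNat →
      GenericDegree m σ (fun q => (E q).support) h e →
      ∀ Γ : Finset ℂ, (∀ γ ∈ Γ, IsAlgebraic (fieldAt K t) γ) →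
      ∀ F : Finset ℂ, (∀ z ∈ F, IsAlgebraic (fieldAt K t) z) →
        {x : ℂ | Point ι d F x ∧
          ¬ NoAtypical (algebraMap (Algebra.adjoin ℤ (Γ : Set ℂ)) ℂ) (fieldAt K t) m
            (memberL x t E)}.Finite := by
  obtain ⟨R, hR, hmain⟩ := generic_lines (m := m) E h hsep hpair e he
  refine ⟨R, hR, fun t ht ι d σ hσ hgen Γ hΓ F hF => ?_⟩
  obtain ⟨D, hD, hG⟩ := hmain t ht σ hgen
  have hcount : Countable (fieldAt K t) := countable_fieldAt t
  cases ι with
  | false =>
    refine (boundedT (fieldAt K t) (fun q => MvPolynomial.map (Polynomial.mapRingHom (spec K t)) (E q))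
      D hD Γ hΓ F hF ∅ (by simp) d σ (by simpa using hσ) hG).subset ?_
    rintro x ⟨hx, hno⟩
    rw [memberL_eq] at hno
    exact ⟨⟨hx.1, fun h => absurd h (by simp), fun a h => absurd h (by simp)⟩, hno⟩
  | true =>
    refine (boundedT (fieldAt K t) (fun q => MvPolynomial.map (Polynomial.mapRingHom (spec K t)) (E q))
      D hD Γ hΓ F hF {none} (by simp) d σ (by simpa using hσ) hG).subset ?_
    rintro x ⟨hx, hno⟩
    rw [memberL_eq] at hno
    exact ⟨⟨hx.1, fun _ => hx.2 rfl, fun a h => absurd h (by simp)⟩, hno⟩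

end Pool.Agent.K6.H43.BD
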