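import Pool.Agent.Y910.Z.Z2
import Mathlib.SetTheory.Cardinal.Subfield

/-!
Numbers of bounded degree over a finitely generated field which are integral relative to given points:
the values of the minimal polynomials at the points have quotients in a finitely generated ring
(helper file).
-/

set_option autoImplicit false

namespace Pool.Agent.K6.H43.BD

open Polynomial Pool.Agent.Y910.Z

/-- `t` is algebraic over the field `L`, of degree at most `d`. -/
def DegreeLE (L : Subfield ℂ) (d : ℕ) (t : ℂ) : Prop :=
  ∃ f : Polynomial L, f ≠ 0 ∧ f.natDegree ≤ d ∧ aeval t f = 0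

theorem DegreeLE.mono {L L' : Subfield ℂ} (h : L ≤ L') {d : ℕ} {t : ℂ} (ht : DegreeLE L d t) :
    DegreeLE L' d t := by
  obtain ⟨f, hf0, hfd, hft⟩ := ht
  have hinj : Function.Injective (Subfield.inclusion h) := (Subfield.inclusion h).injective
  refine ⟨f.map (Subfield.inclusion h), ?_, ?_, ?_⟩
  · rwa [Ne, Polynomial.map_eq_zero_iff hinj]
  · rw [Polynomial.natDegree_map]
    exact hfd
  · rw [aeval_def, eval₂_map]
    exact hft

/-- `t` is integral relative to the point `q` of the projective line (`none` is the point at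
infinity). -/
def At (S : Set ℂ) (t : ℂ) : Option ℂ → Prop
  | some a => Bad S t a
  | none => IsIntegral (Subring.closure S) t

/-- The elements of the ring generated by `t` are values of polynomials. -/
theorem exists_poly (S : Set ℂ) (L : Subfield ℂ) (hS : S ⊆ L) (t z : ℂ)
    (hz : z ∈ Subring.closure (insert t S)) :
    ∃ P : Polynomial L, aeval t P = z ∧ ∀ r : ℂ, aeval r P ∈ Subring.closure (insert r S) := by
  induction hz using Subring.closure_induction with
  | mem x hx =>
    rcases hx with rfl | hx
    · exact ⟨X, aeval_X _, fun r => by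
        rw [aeval_X]
        exact Subring.subset_closure (Set.mem_insert _ _)⟩
    · exact ⟨C ⟨x, hS hx⟩, by rw [aeval_C]; rfl, fun r => by
        rw [aeval_C]
        exact Subring.subset_closure (Set.mem_insert_of_mem _ hx)⟩
  | zero => exact ⟨0, map_zero _, fun r => by rw [map_zero]; exact zero_mem _⟩
  | one => exact ⟨1, map_one _, fun r => by rw [map_one]; exact one_mem _⟩
  | add x y _ _ hx hy =>
    obtain ⟨P, hP, hP'⟩ := hx
    obtain ⟨Q, hQ, hQ'⟩ := hy
    exact ⟨P + Q, by rw [map_add, hP, hQ], fun r => by
      rw [map_add]; exact add_mem (hP' r) (hQ' r)⟩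
  | neg x _ hx =>
    obtain ⟨P, hP, hP'⟩ := hx
    exact ⟨-P, by rw [map_neg, hP], fun r => by
      rw [map_neg]; exact neg_mem (hP' r)⟩
  | mul x y _ _ hx hy =>
    obtain ⟨P, hP, hP'⟩ := hx
    obtain ⟨Q, hQ, hQ'⟩ := hy
    exact ⟨P * Q, by rw [map_mul, hP, hQ], fun r => by
      rw [map_mul]; exact mul_mem (hP' r) (hQ' r)⟩

/-- The property is inherited by the conjugates. -/
theorem At.conj {S : Set ℂ} {L : Subfield ℂ} (hS : S ⊆ L) {t r : ℂ} {q : Option ℂ}
    (hq : ∀ a, q = some a → a ∈ L) (h : At S t q) (hr : aeval r (minpoly L t) = 0) : At S r q := by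
  cases q with
  | none =>
    obtain ⟨g, hg, hgt⟩ := h
    have hSL : Subring.closure S ≤ L.toSubring := Subring.closure_le.2 hS
    let i : Subring.closure S →+* L := Subring.inclusion hSL
    refine ⟨g, hg, ?_⟩
    have h1 : aeval t (g.map i) = 0 := by
      rw [aeval_def, eval₂_map]
      exact hgt
    obtain ⟨w, hw⟩ := minpoly.dvd L t h1
    have h2 : aeval r (g.map i) = 0 := by
      rw [hw, map_mul, hr, zero_mul]
    rw [aeval_def, eval₂_map] at h2
    exact h2
  | some a =>
    obtain ⟨hta, h1⟩ := h
    obtain ⟨P, hP, hP'⟩ := exists_poly S L hS t _ h1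
    have ha : a ∈ L := hq a rfl
    have h2 : aeval t ((X - C (⟨a, ha⟩ : L)) * P - 1) = 0 := by
      rw [map_sub, map_mul, map_sub, aeval_X, aeval_C, hP, map_one]
      change (t - a) * (t - a)⁻¹ - 1 = 0
      rw [mul_inv_cancel₀ (sub_ne_zero.2 hta), sub_self]
    obtain ⟨w, hw⟩ := minpoly.dvd L t h2
    have h3 : aeval r ((X - C (⟨a, ha⟩ : L)) * P - 1) = 0 := by
      rw [hw, map_mul, hr, zero_mul]
    rw [map_sub, map_mul, map_sub, aeval_X, aeval_C, map_one] at h3
    have h4 : (r - a) * aeval r P = 1 := sub_eq_zero.1 h3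
    refine ⟨fun h => ?_, ?_⟩
    · rw [h, sub_self, zero_mul] at h4
      exact zero_ne_one h4
    · rw [inv_eq_of_mul_eq_one_right h4]
      exact hP' r

/-- The value at a point of the projective line of a polynomial regarded as a form of degree `e`. -/
noncomputable def val (e : ℕ) (f : Polynomial ℂ) : Option ℂ → ℂ
  | some a => f.eval a
  | none => f.coeff e

/-- The contribution of a root. -/
noncomputable def fac (r : ℂ) : Option ℂ → ℂ
  | some a => a - r
  | none => 1

theorem val_eq {f : Polynomial ℂ} (hf : f.Monic) (q : Option ℂ) :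
    val f.natDegree f q = (f.roots.map fun r => fac r q).prod := by
  have h1 : f = (f.roots.map fun r => X - C r).prod := by
    have h2 := (IsAlgClosed.splits f).eq_prod_roots
    rw [hf.leadingCoeff, C_1, one_mul] at h2
    exact h2
  cases q with
  | none =>
    change f.coeff f.natDegree = _
    rw [Polynomial.coeff_natDegree, hf.leadingCoeff]
    have h3 : (f.roots.map fun r => fac r none) = f.roots.map fun _ => (1 : ℂ) := rfl
    rw [h3, Multiset.map_const', Multiset.prod_replicate, one_pow]
  | some a =>
    change f.eval a = _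
    conv_lhs => rw [h1]
    rw [eval_multiset_prod, Multiset.map_map]
    congr 1
    refine Multiset.map_congr rfl fun r _ => ?_
    simp [fac]

theorem fac_ne {S : Set ℂ} {r : ℂ} {q : Option ℂ} (h : At S r q) : fac r q ≠ 0 := by
  cases q with
  | none => exact one_ne_zero
  | some a => exact sub_ne_zero.2 fun h' => h.1 h'.symm

theorem fac_div_mem {S : Set ℂ} {r : ℂ} {q q' : Option ℂ} (h : At S r q) (h' : At S r q')
    (V : ValuationSubring ℂ) (hV : S ⊆ V) (hq : ∀ a, q = some a → a ∈ V)
    (hq' : ∀ a, q' = some a → a ∈ V) : fac r q' / fac r q ∈ V := by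
  by_cases hr : r ∈ V
  · have hcl : Subring.closure (insert r S) ≤ V.toSubring :=
      Subring.closure_le.2 (Set.insert_subset hr hV)
    have h1 : fac r q' ∈ V := by
      cases q' with
      | none => exact one_mem V
      | some a => exact sub_mem (hq' a rfl) hr
    have h2 : (fac r q)⁻¹ ∈ V := by
      cases q with
      | none =>
        change (1 : ℂ)⁻¹ ∈ V
        rw [inv_one]
        exact one_mem V
      | some a =>
        have h3 : (r - a)⁻¹ ∈ V := hcl h.2
        change (a - r)⁻¹ ∈ V
        rw [← neg_sub, inv_neg]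
        exact neg_mem h3
    rw [div_eq_mul_inv]
    exact mul_mem h1 h2
  · have hnone : ∀ p : Option ℂ, At S r p → ∃ a, p = some a := by
      intro p hp
      cases p with
      | none =>
        exfalso
        apply hr
        obtain ⟨g, hg, hgr⟩ := hp
        have hcl : Subring.closure S ≤ V.toSubring := Subring.closure_le.2 hV
        let i : Subring.closure S →+* V := Subring.inclusion hcl
        have h3 : IsIntegral V r := ⟨g.map i, hg.map _, by
          rw [eval₂_map]
          exact hgr⟩
        obtain ⟨y, hy⟩ := IsIntegrallyClosed.isIntegral_iff.1 h3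
        rw [← hy]
        exact y.2
      | some a => exact ⟨a, rfl⟩
    obtain ⟨a, rfl⟩ := hnone q h
    obtain ⟨a', rfl⟩ := hnone q' h'
    have hr0 : r ≠ 0 := fun h => hr (h ▸ zero_mem V)
    have hri : r⁻¹ ∈ V := (V.mem_or_inv_mem r).resolve_left hr
    have hri' : V.valuation r⁻¹ < 1 := by
      rw [map_inv₀]
      have h3 : 1 < V.valuation r := by
        rw [← not_le, ValuationSubring.valuation_le_one_iff]
        exact hr
      exact inv_lt_one_of_one_lt₀ h3
    have hu : ∀ b ∈ V, V.valuation (b * r⁻¹ - 1) = 1 := by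
      intro b hb
      have h4 : V.valuation (b * r⁻¹) < 1 := by
        rw [map_mul]
        exact mul_lt_one_of_nonneg_of_lt_one_right
          ((ValuationSubring.valuation_le_one_iff _ _).2 hb) zero_le hri'
      have h5 : V.valuation (b * r⁻¹ - 1) = V.valuation (-1 : ℂ) := by
        rw [sub_eq_add_neg]
        apply Valuation.map_add_eq_of_lt_right
        rw [Valuation.map_neg, map_one]
        exact h4
      rw [h5, Valuation.map_neg, map_one]
    have h5 : fac r (some a') / fac r (some a) = (a' * r⁻¹ - 1) / (a * r⁻¹ - 1) := by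
      change (a' - r) / (a - r) = _
      have h6 : a * r⁻¹ - 1 = (a - r) * r⁻¹ := by field_simp
      have h7 : a' * r⁻¹ - 1 = (a' - r) * r⁻¹ := by field_simp
      rw [h6, h7, mul_div_mul_right _ _ (inv_ne_zero hr0)]
    rw [h5, ← ValuationSubring.valuation_le_one_iff, map_div₀, hu _ (hq' a' rfl),
      hu _ (hq a rfl), div_one]

/-- The quotients of the values of the minimal polynomial are in a finitely generated ring. -/
theorem quotients (S : Finset ℂ) : ∃ T : Finset ℂ, ∀ t : ℂ,
    IsIntegral (Subfield.closure (S : Set ℂ)) t → ∀ q q' : Option ℂ,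
    (∀ a, q = some a → a ∈ S) → (∀ a, q' = some a → a ∈ S) → At S t q → At S t q' →
    val (minpoly (Subfield.closure (S : Set ℂ)) t).natDegree
      ((minpoly (Subfield.closure (S : Set ℂ)) t).map (algebraMap _ ℂ)) q ≠ 0 ∧
    val (minpoly (Subfield.closure (S : Set ℂ)) t).natDegree
      ((minpoly (Subfield.closure (S : Set ℂ)) t).map (algebraMap _ ℂ)) q' /
    val (minpoly (Subfield.closure (S : Set ℂ)) t).natDegree
      ((minpoly (Subfield.closure (S : Set ℂ)) t).map (algebraMap _ ℂ)) q ∈
      Subring.closure (T : Set ℂ) := by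
  obtain ⟨T, hT⟩ := exists_closure_val S
  refine ⟨T, fun t ht q q' hq hq' h h' => ?_⟩
  set L := Subfield.closure (S : Set ℂ) with hL
  have hSL : (S : Set ℂ) ⊆ L := Subfield.subset_closure
  have hmon : ((minpoly L t).map (algebraMap L ℂ)).Monic := (minpoly.monic ht).map _
  have hdeg : (minpoly L t).natDegree = ((minpoly L t).map (algebraMap L ℂ)).natDegree :=
    (natDegree_map _).symm
  rw [hdeg]
  have hroot : ∀ r ∈ ((minpoly L t).map (algebraMap L ℂ)).roots, aeval r (minpoly L t) = 0 := by
    intro r hr
    rw [aeval_def, ← eval_map]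
    exact (mem_roots'.1 hr).2
  have hAt : ∀ r ∈ ((minpoly L t).map (algebraMap L ℂ)).roots, At S r q := fun r hr =>
    h.conj hSL (fun a ha => hSL (hq a ha)) (hroot r hr)
  have hAt' : ∀ r ∈ ((minpoly L t).map (algebraMap L ℂ)).roots, At S r q' := fun r hr =>
    h'.conj hSL (fun a ha => hSL (hq' a ha)) (hroot r hr)
  refine ⟨?_, hT _ ?_ fun V hV => ?_⟩
  · rw [val_eq hmon]
    apply Multiset.prod_ne_zero
    intro h0
    obtain ⟨r, hr, hr0⟩ := Multiset.mem_map.1 h0
    exact fac_ne (hAt r hr) hr0
  · have hval : ∀ p : Option ℂ, (∀ a, p = some a → a ∈ S) →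
        val ((minpoly L t).map (algebraMap L ℂ)).natDegree
          ((minpoly L t).map (algebraMap L ℂ)) p ∈ L := by
      intro p hp
      cases p with
      | none =>
        change ((minpoly L t).map (algebraMap L ℂ)).coeff _ ∈ L
        rw [coeff_map]
        exact ((minpoly L t).coeff _).2
      | some a =>
        change ((minpoly L t).map (algebraMap L ℂ)).eval a ∈ L
        have h1 : a = algebraMap L ℂ ⟨a, hSL (hp a rfl)⟩ := rfl
        rw [h1, eval_map_algebraMap, aeval_algebraMap_apply]
        exact (aeval _ (minpoly L t) : L).2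
    exact div_mem (hval q' hq') (hval q hq)
  · rw [val_eq hmon, val_eq hmon]
    have key : ∀ M : Multiset ℂ, (∀ r ∈ M, At S r q ∧ At S r q') →
        (M.map fun r => fac r q').prod / (M.map fun r => fac r q).prod ∈ V := by
      intro M
      induction M using Multiset.induction_on with
      | empty => intro _; simp
      | cons r M ih =>
        intro hM
        rw [Multiset.map_cons, Multiset.map_cons, Multiset.prod_cons, Multiset.prod_cons,
          mul_div_mul_comm]
        obtain ⟨h1, h2⟩ := hM r (Multiset.mem_cons_self _ _)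
        refine mul_mem (fac_div_mem h1 h2 V hV (fun a ha => hV a (hq a ha))
          fun a ha => hV a (hq' a ha)) (ih fun r' hr' => hM r' (Multiset.mem_cons_of_mem hr'))
    exact key _ fun r hr => ⟨hAt r hr, hAt' r hr⟩

end Pool.Agent.K6.H43.BD
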